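import Pool.Agent.Helper64.FL.StC

set_option autoImplicit false

namespace Pool.Agent.Helper64.FL

open Pool.Agent.Helper64.CT Pool.Agent.Helper64.DT
open Pool.Agent.Helper64.HG (Ovl Model Circ IC HellyCircle ChordModel)

variable {V : Type}

theorem cwx_symm {G : SimpleGraph V} {y a b : V} (h : Comp G y a b) : Comp G y b a := by
  obtain ⟨ha, hb, h⟩ := h
  exact ⟨hb, ha, h.symm⟩

theorem cwx_trans {G : SimpleGraph V} {y a b c : V} (h : Comp G y a b) (h' : Comp G y b c) :
    Comp G y a c := by
  obtain ⟨ha, hb, h⟩ := h
  obtain ⟨hb', hc, h'⟩ := h'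
  exact ⟨ha, hc, h.trans h'⟩

theorem cwx_att {G : SimpleGraph V} {y a b : V} (h : Comp G y a b) : Att G y a = Att G y b := by
  ext n
  constructor
  · rintro ⟨h1, u, h2, h3⟩
    exact ⟨h1, u, cwx_trans (cwx_symm h) h2, h3⟩
  · rintro ⟨h1, u, h2, h3⟩
    exact ⟨h1, u, cwx_trans h h2, h3⟩

theorem cwx_right {G : SimpleGraph V} {y a b b' : V} (h : Conf G y a b) (h' : Comp G y b b') :
    Conf G y a b' := by
  obtain ⟨h1, ⟨u, h2, h3⟩, w, h4, h5⟩ := h
  refine ⟨fun h => h1 (cwx_trans h (cwx_symm h')), ⟨u, h2, ?_⟩, w, cwx_trans (cwx_symm h') h4, h5⟩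
  rw [← cwx_att h']
  exact h3

theorem cwx_left {G : SimpleGraph V} {y a a' b : V} (h : Conf G y a b) (h' : Comp G y a a') :
    Conf G y a' b := by
  obtain ⟨h1, ⟨u, h2, h3⟩, w, h4, h5⟩ := h
  refine ⟨fun h => h1 (cwx_trans h' h), ⟨u, cwx_trans (cwx_symm h') h2, h3⟩, w, h4, ?_⟩
  rw [← cwx_att h']
  exact h5

theorem st_CWX : ST_CWX := by
  intro V G y
  refine ⟨?_, ?_⟩
  · intro u w hu h
    unfold Clu at h
    induction h with
    | refl => exact Or.inl ⟨hu, hu, SimpleGraph.Reachable.refl _⟩
    | tail hab hbc ih =>
      rename_i b c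
      rcases hbc with hbc | hbc
      · rcases ih with ih | ⟨r, E, hr, h0, hE, hc⟩
        · exact Or.inl (cwx_trans ih hbc)
        · refine Or.inr ⟨r, Function.update E r c, hr, ?_, by simp, ?_⟩
          · rw [Function.update_of_ne (by omega)]
            exact h0
          · intro i hi
            rw [Function.update_of_ne (by omega)]
            by_cases h1 : i + 1 = r
            · subst h1
              rw [Function.update_self]
              exact cwx_right (hc i (by omega)) (hE ▸ hbc)
            · rw [Function.update_of_ne h1]
              exact hc i hi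
      · rcases ih with ih | ⟨r, E, hr, h0, hE, hc⟩
        · refine Or.inr ⟨1, fun i => if i = 0 then u else c, le_rfl, by simp, by simp, ?_⟩
          intro i hi
          have : i = 0 := by omega
          subst this
          simp only [if_true, Nat.zero_add, one_ne_zero, if_false]
          exact cwx_left hbc (cwx_symm ih)
        · refine Or.inr ⟨r + 1, Function.update E (r + 1) c, by omega, ?_, by simp, ?_⟩
          · rw [Function.update_of_ne (by omega)]
            exact h0
          · intro i hi
            rw [Function.update_of_ne (by omega)]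
            by_cases h1 : i = r
            · subst h1
              rw [Function.update_self, hE]
              exact hbc
            · rw [Function.update_of_ne (by omega)]
              exact hc i (by omega)
  · intro r E
    induction r with
    | zero =>
      intro _
      exact ⟨Relation.ReflTransGen.refl, fun c _ => by simp⟩
    | succ r ih =>
      intro h
      obtain ⟨h1, h2⟩ := ih (fun i hi => h i (by omega))
      refine ⟨Relation.ReflTransGen.tail h1 (Or.inr (h r (by omega))), ?_⟩
      intro c hc
      have h3 := h2 c hc
      have h4 := hc.2 _ _ (h r (by omega))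
      rw [Nat.even_add_one, ← h3]
      revert h4
      cases c (E 0) <;> cases c (E r) <;> cases c (E (r + 1)) <;> simp

end Pool.Agent.Helper64.FL
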