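import Pool.Agent.Helper64.FL.StC

set_option autoImplicit false

namespace Pool.Agent.Helper64.FL

open Pool.Agent.Helper64.CT Pool.Agent.Helper64.DT
open Pool.Agent.Helper64.HG (Ovl Model Circ IC HellyCircle ChordModel)

variable {V : Type}

theorem st_CYO (h1 : ST_BCF) (h2 : ST_RCX) (h3 : ST_XSB) : ST_CYO := by
  intro V G Q σ hE m q P u w hB z hz
  by_contra hcon
  push Not at hcon
  obtain ⟨-, b2, b3, b4, -⟩ := h1 V G Q σ hE m q P u w hB
  obtain ⟨c, hc1, hc2⟩ := hE.cii z
  have hm3 := hB.m3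
  have hz' : ∀ i, z ≠ q i := fun i h => hcon i h.symm
  have e1 : ∀ i, c (u i) = c (w (i + 1)) := fun i => hc1 _ _ (b3 i z hz (hz' _) (hz' _))
  have e2' : ∀ i, xor (σ (u (i + 1))) (σ (w (i + 1))) = xor (c (u (i + 1))) (c (w (i + 1))) := by
    intro i
    obtain ⟨d1, d2⟩ := b4 i z hz (hz' _) (hz' _) (hz' _)
    by_cases h : σ (w (i + 1)) = σ (u (i + 1))
    · have := hc1 _ _ (d1 h)
      rw [h, this]
      simp
    · have := hc2 _ _ (d2 h)
      revert this h
      cases σ (w (i + 1)) <;> cases σ (u (i + 1)) <;> cases c (w (i + 1)) <;>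
        cases c (u (i + 1)) <;> simp
  have e2 : ∀ i, xor (σ (u i)) (σ (w i)) = xor (c (u i)) (c (w i)) := by
    intro i
    have h := e2' (i + (m - 1))
    have h' : i + (m - 1) + 1 = i + m := by omega
    rw [h', hB.pu, hB.pw] at h
    exact h
  have hsum : xs (fun i => xor (σ (u i)) (σ (w i))) m = false := by
    have f1 : (fun i => xor (σ (u i)) (σ (w i))) = fun i => xor (c (u i)) (c (w i)) := funext e2
    rw [f1]
    rw [(h3 (fun i => c (u i)) (fun i => c (w i)) m).1]
    have f2 : (fun i => c (u i)) = fun i => c (w (i + 1)) := funext e1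
    rw [f2]
    have f3 := (h3 (fun i => c (w i)) (fun i => c (w i)) m).2.1 (fun i => by
      show c (w (i + m)) = c (w i)
      rw [hB.pw]) 1
    rw [f3]
    simp
  obtain ⟨i, hi⟩ := h2 V G Q σ hE m q u w b2 hsum z hz
  exact hcon i hi

end Pool.Agent.Helper64.FL
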