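import Pool.Agent.Helper64.FL.StC

set_option autoImplicit false

namespace Pool.Agent.Helper64.FL

open Pool.Agent.Helper64.CT Pool.Agent.Helper64.DT
open Pool.Agent.Helper64.HG (Ovl Model Circ IC HellyCircle ChordModel)

variable {V : Type}

theorem st_HCM (h1 : ST_HT3) (h2 : ST_HC0) (h3 : ST_HC1) (h4 : ST_BCF) (h5 : ST_XSB) :
    ST_HCM := by
  intro V _ G Q σ hE m q P u w hB
  obtain ⟨b1, -, -, -, -⟩ := h4 V G Q σ hE m q P u w hB
  have hm3 := hB.m3
  by_cases hm : m = 3
  · left
    subst hm
    have e0 := b1 0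
    have e1 := b1 1
    have e2 := b1 2
    have hq : q (2 + 1) = q 0 := by simpa using hB.pq 0
    have hw : w (2 + 1) = w 0 := by simpa using hB.pw 0
    rw [hq, hw] at e2
    have h := h1 V G Q σ hE (q 0) (q 1) (q 2) (u 0) (w 1) (u 1) (w 2) (u 2) (w 0) e0 e1 e2
    simp only [xs]
    revert h
    cases σ (u 0) <;> cases σ (w 0) <;> cases σ (u 1) <;> cases σ (w 1) <;> cases σ (u 2) <;>
      cases σ (w 2) <;> simp
  · have hm4 : 4 ≤ m := by omega
    by_cases hs : xs (fun i => xor (σ (u i)) (σ (w i))) m = true
    · exact Or.inl hs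
    · right
      rw [Bool.not_eq_true] at hs
      by_cases he : ∃ i, σ (u i) = σ (w i)
      · exact (h2 V G Q σ hE m q P u w hB hm4 he hs).elim
      · push Not at he
        obtain ⟨-, -, -, x4, -, x6⟩ := h5 (fun i => xor (σ (u i)) (σ (w i))) (fun _ => true) m
        have h := x4 (fun i _ => by
          have := he i
          revert this
          cases σ (u i) <;> cases σ (w i) <;> simp)
        rw [h, x6] at hs
        have hev : Even m := by
          rw [← Nat.not_odd_iff_even]
          exact of_decide_eq_false hs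
        exact h3 V G Q σ hE m q P u w hB hm4 hev he

end Pool.Agent.Helper64.FL
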