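import Pool.Agent.Helper64.FL.StC

set_option autoImplicit false

namespace Pool.Agent.Helper64.FL

open Pool.Agent.Helper64.CT Pool.Agent.Helper64.DT
open Pool.Agent.Helper64.HG (Ovl Model Circ IC HellyCircle ChordModel)

variable {V : Type}

theorem st_HTA (h1 : ST_EWD) (h2 : ST_HTE) (h3 : ST_HTD) (h4 : ST_RAY) (h5 : ST_CNB) :
    ST_HTA := by
  intro V G Q σ hE x y z a la a' b lb b' m m' x3 y3 y1 z1 z2 x2 hT hxy hyz hzx
  obtain ⟨-, -, -, r4, -, -⟩ := h4 V G Q hE.red.df hE.mx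
  obtain ⟨c1, c2, c3, c4, c5, c6, c7⟩ := h5 V G
  have nxy : x ≠ y := hxy.1
  have nyz : y ≠ z := hyz.1
  have nzx : z ≠ x := hzx.1
  have hx : x ∈ Q := hxy.2.1.1
  have hy : y ∈ Q := hyz.2.1.1
  have hz : z ∈ Q := hzx.2.1.1
  have haQ : a ∉ Q := hT.inS.1 (Or.inl rfl)
  have hbQ : b ∉ Q := hT.inS.2.1 (Or.inl rfl)
  have hmQ : m ∉ Q := hT.inS.2.2.1
  have hmQ' : m' ∉ Q := hT.inS.2.2.2
  have ra : RayQ G Q x a := ⟨hx, hT.A.yb, haQ⟩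
  have rb : RayQ G Q y b := ⟨hy, hT.B.yb, hbQ⟩
  have rm : RayQ G Q z m := ⟨hz, hT.zm, hmQ⟩
  have rm' : RayQ G Q z m' := ⟨hz, hT.zm', hmQ'⟩
  have hPA : ∀ S : Set V, PV a la a' ⊆ S → Cn G S a a' := fun S hS =>
    c7 S a la a' hT.A.pth ⟨hS (Or.inl rfl), hS (Or.inr (Or.inr rfl)),
      fun u hu => hS (Or.inr (Or.inl hu))⟩
  have hPB : ∀ S : Set V, PV b lb b' ⊆ S → Cn G S b b' := fun S hS =>
    c7 S b lb b' hT.B.pth ⟨hS (Or.inl rfl), hS (Or.inr (Or.inr rfl)),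
      fun u hu => hS (Or.inr (Or.inl hu))⟩
  have k1 : Comp G y m a := by
    rw [c5]
    exact c2 _ _ _ _ (c4 _ _ _ hT.mF.2 (hT.Ay (Or.inr (Or.inr rfl))) hT.A.mb)
      (c1 _ _ _ (hPA _ hT.Ay)).2
  have k2 : Comp G x b m' := by
    rw [c5]
    exact c2 _ _ _ _ (hPB _ hT.Bx)
      (c4 _ _ _ (hT.Bx (Or.inr (Or.inr rfl))) hT.mF'.1 hT.B.mb.symm)
  have k3 : Comp G y z2 x2 := (r4 _ _ _ _ hzx).2.2.2.2 y hy nyz nxy.symm
  have k4 : Comp G x y1 z1 := (r4 _ _ _ _ hyz).2.2.2.2 x hx nxy nzx.symm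
  have w1 := h1 V G Q σ hE z x y z2 m x2 a nzx hy nyz nxy.symm hzx.2.1 rm hzx.2.2.1 ra k3 k1
  have w2 := h1 V G Q σ hE y z x y1 b z1 m' nyz hx nxy nzx.symm hyz.2.1 rb hyz.2.2.1 rm' k4 k2
  have w3 : σ m = σ m' := by
    rcases hT.mm with h | ⟨h, -, -⟩
    · rw [h]
    · exact (hE.sg z m m' x rm rm' hx nzx.symm).1
        ((c5 _ _ _).2 (c4 _ _ _ hT.mF.1 hT.mF'.1 h))
  by_contra hcon
  rw [Bool.not_eq_true] at hcon
  by_cases e : σ a = σ x3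
  · have e' : σ b = σ y3 := by
      revert hcon w1 w2 w3 e
      cases σ a <;> cases σ b <;> cases σ x3 <;> cases σ y3 <;> cases σ y1 <;> cases σ z1 <;>
        cases σ z2 <;> cases σ x2 <;> cases σ m <;> cases σ m' <;> simp
    exact h2 V G Q σ hE x y z a la a' b lb b' m m' x3 y3 hx hy hz nxy nzx.symm nyz hT hxy e e'
  · have e' : σ b ≠ σ y3 := by
      revert hcon w1 w2 w3 e
      cases σ a <;> cases σ b <;> cases σ x3 <;> cases σ y3 <;> cases σ y1 <;> cases σ z1 <;>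
        cases σ z2 <;> cases σ x2 <;> cases σ m <;> cases σ m' <;> simp
    exact h3 V G Q σ hE x y z a la a' b lb b' m m' x3 y3 hx hy hz nxy nzx.symm nyz hT hxy e e'

end Pool.Agent.Helper64.FL
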