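import Pool.Agent.Helper64.FL.StC

set_option autoImplicit false

namespace Pool.Agent.Helper64.FL

open Pool.Agent.Helper64.CT Pool.Agent.Helper64.DT
open Pool.Agent.Helper64.HG (Ovl Model Circ IC HellyCircle ChordModel)

variable {V : Type}

/-- along an induced path inside `S` every vertex is connected to the first one -/
theorem lwb_path (G : SimpleGraph V) (S : Set V) : ∀ (l : List V) (a : V), IPt G (a :: l) →
    (∀ u ∈ a :: l, u ∈ S) → ∀ v ∈ a :: l, Cn G S a v
  | [], a, _, hS, v, hv => by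
    simp only [List.mem_singleton] at hv
    subst hv
    exact ⟨hS v (by simp), Relation.ReflTransGen.refl⟩
  | b :: l, a, hI, hS, v, hv => by
    rcases List.mem_cons.1 hv with hv | hv
    · subst hv
      exact ⟨hS v (by simp), Relation.ReflTransGen.refl⟩
    · have hab : G.Adj a b := hI.2.1 b (by simp)
      have h := lwb_path G S l b hI.2.2.2 (fun u hu => hS u (List.mem_cons_of_mem _ hu)) v hv
      exact ⟨hS a (by simp), Relation.ReflTransGen.head ⟨hab, hS b (by simp)⟩ h.2⟩

/-- head and last of an induced path ended by `w` -/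
theorem lwb_last (G : SimpleGraph V) : ∀ (l : List V) (a w : V), IPt G (a :: (l ++ [w])) →
    (∀ u ∈ (a :: l).getLast?, G.Adj u w) ∧ (∀ u ∈ (a :: l).dropLast, ¬ G.Adj u w) ∧
      (∀ u ∈ a :: l, u ≠ w) ∧ IPt G (a :: l)
  | [], a, w, hI => by
    refine ⟨?_, by simp, ?_, by simp [IPt]⟩
    · intro u hu
      simp only [List.getLast?_singleton, Option.mem_def, Option.some.injEq] at hu
      subst hu
      exact hI.2.1 w (by simp)
    · intro u hu
      simp only [List.mem_singleton] at hu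
      subst hu
      exact hI.1 w (by simp)
  | b :: l, a, w, hI => by
    obtain ⟨h1, h2, h3, h4⟩ := lwb_last G l b w hI.2.2.2
    refine ⟨?_, ?_, ?_, ?_⟩
    · intro u hu
      rw [List.getLast?_cons_cons] at hu
      exact h1 u hu
    · intro u hu
      rw [List.dropLast_cons_cons] at hu
      rcases List.mem_cons.1 hu with hu | hu
      · subst hu
        exact hI.2.2.1 w (by simp)
      · exact h2 u hu
    · intro u hu
      rcases List.mem_cons.1 hu with hu | hu
      · subst hu
        exact hI.1 w (by simp)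
      · exact h3 u hu
    · refine ⟨fun x hx => hI.1 x ?_, fun x hx => hI.2.1 x ?_, fun x hx => hI.2.2.1 x ?_, h4⟩
      · rw [List.cons_append]
        rcases List.mem_cons.1 hx with hx | hx
        · subst hx
          simp
        · exact List.mem_cons_of_mem _ (List.mem_append_left _ hx)
      · simpa using hx
      · simp only [List.tail_cons] at hx
        simp only [List.cons_append, List.tail_cons]
        exact List.mem_append_left _ hx

theorem st_LWB (h1 : ST_LWR) (h2 : ST_LW2) (h3 : ST_RAY) (h4 : ST_STB) (h5 : ST_PTB)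
    (h6 : ST_CNB) (h7 : ST_SPN) (h8 : ST_ARC) (h9 : ST_LPN) : ST_LWB := by
  intro V G Q hR hCI hQ hB x y r E hW hH
  have hDF := hR.df
  obtain ⟨hray1, -, hray3, -, -, -⟩ := h3 V G Q hDF hQ
  obtain ⟨c1, c2, c3, c4, c5, c6, c7⟩ := h6 V G
  have hr3 := hW.r3
  have hEr := hW.rayr
  have hfarE : E r ∈ Far G y := (hray1 x (E r) y hEr hW.yQ hW.xy.symm).1
  have hfarE0 : E 0 ∈ Far G y := (hray1 x (E 0) y hW.ray0 hW.yQ hW.xy.symm).1
  have hxA0 : x ∈ Att G y (E 0) := (hray1 x (E 0) y hW.ray0 hW.yQ hW.xy.symm).2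
  have hcEr : Comp G y (E r) (E r) := (c5 y _ _).2 ⟨hfarE, Relation.ReflTransGen.refl⟩
  have hErU : ∀ i, i + 2 ≤ r → ∀ n ∈ Att G y (E i), G.Adj (E r) n := by
    rcases hW.cpl (E r) hcEr with h | h
    · exact h
    · exact absurd hEr.2.1.symm (h 0 (by omega) x hxA0)
  have hcf := hW.cf (r - 1) (by omega)
  have hr1 : r - 1 + 1 = r := by omega
  rw [hr1] at hcf
  obtain ⟨um, hum, ⟨pm, hpm, hupm⟩, qm, hqm, huqm⟩ := hcf.2.2
  have humU : ¬ ∀ i, i + 2 ≤ r → ∀ n ∈ Att G y (E i), G.Adj um n := fun h =>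
    huqm (hH um hum h qm hqm)
  have hcn : Cn G (KC G y (E r)) um (E r) := (c1 _ _ _ (c6 y _ _ hum)).2
  obtain ⟨v0, M, u0, hv0A, hv0S, hu0U, hu0S, hP, hM, hne⟩ := h7 V G (KC G y (E r))
    {v | (¬ ∀ i, i + 2 ≤ r → ∀ n ∈ Att G y (E i), G.Adj v n) ∧
      ∃ p ∈ Att G y (E (r - 1)), G.Adj v p}
    {v | ∀ i, i + 2 ≤ r → ∀ n ∈ Att G y (E i), G.Adj v n}
    ⟨um, ⟨humU, pm, hpm, hupm⟩, E r, hErU, hcn⟩
  simp only [Set.mem_setOf_eq] at hv0A hu0U hM hne
  obtain ⟨hv0n, p, hp, hv0p⟩ := hv0A
  have hv0c : Comp G y (E r) v0 := hv0S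
  have hu0c : Comp G y (E r) u0 := hu0S
  have hnone : ∀ v, Comp G y (E r) v →
      (¬ ∀ i, i + 2 ≤ r → ∀ n ∈ Att G y (E i), G.Adj v n) →
      ∀ i, i + 2 ≤ r → ∀ n ∈ Att G y (E i), ¬ G.Adj v n := by
    intro v hv hn
    rcases hW.cpl v hv with h | h
    · exact absurd h hn
    · exact h
  have hv0u0 : v0 ≠ u0 := by
    intro h
    subst h
    exact hv0n hu0U
  have hIP : IPt G (v0 :: (M ++ [u0])) := by
    rcases hP with ⟨h, -⟩ | ⟨-, h⟩
    · exact absurd h hv0u0
    · exact h
  obtain ⟨hL1, hL2, hL3, hL4⟩ := lwb_last G M v0 u0 hIP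
  have hpn : ∀ i, i + 2 ≤ r → p ∉ Att G y (E i) := fun i hi hpi =>
    hnone v0 hv0c hv0n i hi p hpi hv0p
  have hu0p : G.Adj u0 p := hH u0 hu0c hu0U p hp
  -- all vertices of the path are in the component of `E r` and not in `U`
  have hcomp : ∀ u ∈ v0 :: M, Comp G y (E r) u := by
    intro u hu
    rcases List.mem_cons.1 hu with hu | hu
    · subst hu
      exact hv0c
    · exact (hM u hu).1
  have hnU : ∀ u ∈ v0 :: M, ∀ i, i + 2 ≤ r → ∀ n ∈ Att G y (E i), ¬ G.Adj u n := by
    intro u hu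
    rcases List.mem_cons.1 hu with hu' | hu'
    · subst hu'
      exact hnone _ hv0c hv0n
    · exact hnone u (hcomp u hu) (hM u hu').2.2
  have hfar : ∀ u ∈ v0 :: M, u ∈ Far G y := fun u hu =>
    (c1 _ _ _ ((c5 y _ _).1 (hcomp u hu))).1
  have hu0far : u0 ∈ Far G y := (c1 _ _ _ ((c5 y _ _).1 hu0c)).1
  obtain ⟨n, P, hArc, hn0, hnr, hni, hPi, hst⟩ := h1 V G Q hDF hQ x y r E hW p hp hpn
  have hattn : ∀ i, i < r → ∃ j, j + 2 ≤ r ∧ n i ∈ Att G y (E j) := by
    intro i hi
    by_cases h0 : i = 0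
    · subst h0
      exact ⟨0, by omega, by rw [hn0]; exact hxA0⟩
    · exact ⟨i - 1, by omega, (hni i (by omega) hi).2.1⟩
  have hyn : ∀ i, i ≤ r → G.Adj y (n i) := fun i hi => hArc.xn i (by omega) hi
  have hu0n : ∀ i, i ≤ r → G.Adj u0 (n i) := by
    intro i hi
    rcases Nat.lt_or_ge i r with h | h
    · obtain ⟨j, hj, hnj⟩ := hattn i h
      exact hu0U j hj _ hnj
    · have : i = r := by omega
      subst this
      rw [hnr]
      exact hu0p
  have hstb : ∀ i j, i < j → j ≤ r → ¬ G.Adj (n i) (n j) := by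
    intro i j hij hj
    exact (h4 V G hDF y u0 (n i) (n j) hu0far.1 (hArc.inj i j (by omega) hij hj)
      (hyn i (by omega)) (hyn j hj) (hu0n i (by omega)) (hu0n j hj)).1 hu0far.2
  obtain ⟨z, hzQ, hzx, hzy⟩ := hB x y
  have hyz : G.Adj y z := hQ.1 y hW.yQ z hzQ hzy.symm
  have hxz : G.Adj x z := hQ.1 x hW.xQ z hzQ hzx.symm
  have hn0' : n 0 = x := hn0
  have hu0x : G.Adj u0 x := by
    have := hu0n 0 (by omega)
    rwa [hn0] at this
  have hu0Q : u0 ∉ Q := hray3 y hW.yQ u0 hu0far
  have hzu0 : u0 ∈ Far G z := (hray1 x u0 z ⟨hW.xQ, hu0x.symm, hu0Q⟩ hzQ hzx).1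
  have hLW2 := h2 V G Q hDF hCI hQ x y r E hW
  have hpQ : p ∉ Q := fun h => hLW2 p h hp
  have hniQ : ∀ i, 1 ≤ i → i ≤ r → n i ∉ Q := by
    intro i hi1 hi
    rcases Nat.lt_or_ge i r with h | h
    · exact (hni i hi1 h).1
    · have : i = r := by omega
      subst this
      rw [hnr]
      exact hpQ
  have hzn : ∀ i, 1 ≤ i → i ≤ r → n i ∈ Far G z := by
    intro i hi1 hi
    exact (hray1 y (n i) z ⟨hW.yQ, hyn i hi, hniQ i hi1 hi⟩ hzQ hzy).1
  have hqA : ∀ i, i < r → z ∉ Att G y (E i) := by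
    intro i hi
    by_cases h : i + 2 ≤ r
    · exact hW.qat i h z hzQ hzx
    · have : i = r - 1 := by omega
      subst this
      exact hLW2 z hzQ
  have hzP : ∀ i, i < r → ∀ w ∈ P i, z ≠ w ∧ ¬ G.Adj z w := by
    intro i hi w hw
    have hwf : w ∈ Far G y := hArc.far i (by omega) hi w hw
    refine ⟨?_, ?_⟩
    · intro h
      subst h
      exact hwf.2 hyz
    · intro h
      exact hqA i hi ⟨hyz, w, hPi i hi w hw, h⟩
  -- different components
  have hsepc : ∀ i, i < r → ∀ w ∈ P i, ∀ u, Comp G y (E r) u → u ≠ w ∧ ¬ G.Adj u w := by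
    intro i hi w hw u hu
    have hcw := (c5 y _ _).1 (hPi i hi w hw)
    have hcu := (c5 y _ _).1 hu
    have hwf := (c1 _ _ _ hcw).1
    have huf := (c1 _ _ _ hcu).1
    refine ⟨?_, ?_⟩
    · intro h
      subst h
      exact hW.ncm i r hi le_rfl ((c5 y _ _).2 (c2 _ _ _ _ hcw (c1 _ _ _ hcu).2))
    · intro h
      exact hW.ncm i r hi le_rfl ((c5 y _ _).2 (c2 _ _ _ _ (c2 _ _ _ _ hcw
        (c4 _ _ _ hwf huf h.symm)) (c1 _ _ _ hcu).2))
  have hun : ∀ u ∈ v0 :: M, ∀ i, i ≤ r → u ≠ n i ∧ (i ≠ r → ¬ G.Adj u (n i)) := by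
    intro u hu i hi
    refine ⟨?_, ?_⟩
    · intro h
      exact (hfar u hu).2 (h ▸ hyn i hi)
    · intro hir
      obtain ⟨j, hj, hnj⟩ := hattn i (by omega)
      exact hnU u hu j hj _ hnj
  -- `z` is not adjacent to the path
  have hcz : ∀ v ∈ v0 :: M, z ≠ v ∧ ¬ G.Adj z v := by
    intro v hv
    refine ⟨?_, ?_⟩
    · intro h
      subst h
      exact (hfar _ hv).2 hyz
    · intro hzv
      obtain ⟨hsub, hcon⟩ := h8 V G y n P 0 r hArc
      have hdist : ∀ i j, i < j → j ≤ r → n i ≠ n j := fun i j hij hj =>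
        hArc.inj i j (by omega) hij hj
      have hfn : ∀ i j, i ≤ r → j ≤ r → i ≠ j → n j ∈ Far G (n i) := by
        intro i j hi hj hij
        rcases Nat.lt_or_ge i j with h | h
        · exact ⟨(hdist i j h hj).symm, hstb i j h hj⟩
        · exact ⟨hdist j i (by omega) hi, fun h' => hstb j i (by omega) hi h'.symm⟩
      have hfP : ∀ i j, i < r → j ≤ r → j ≠ i → j ≠ i + 1 → ∀ u ∈ P i, u ∈ Far G (n j) := by
        intro i j hi hj h1' h2' u hu
        refine ⟨?_, hArc.cln i j (by omega) hi (by omega) hj h1' h2' u hu⟩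
        intro h
        exact (hArc.far i (by omega) hi u hu).2 (h ▸ hyn j hj)
      have e01 : Comp G (n 2) (n 0) (n 1) := by
        obtain ⟨-, hc⟩ := h8 V G y n P 0 1 (hsub 0 1 (by omega) (by omega) (by omega))
        refine hc (n 2) ?_ ?_ 0 1 (by omega) (by omega) (by omega) (by omega)
        · intro i _ hi
          exact hfn 2 i (by omega) (by omega) (by omega)
        · intro i _ hi u hu
          exact hfP i 2 (by omega) (by omega) (by omega) (by omega) u hu
      have e12 : Comp G (n 0) (n 1) (n 2) := by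
        obtain ⟨-, hc⟩ := h8 V G y n P 1 2 (hsub 1 2 (by omega) (by omega) (by omega))
        refine hc (n 0) ?_ ?_ 1 2 (by omega) (by omega) (by omega) (by omega)
        · intro i _ hi
          exact hfn 0 i (by omega) (by omega) (by omega)
        · intro i _ hi u hu
          exact hfP i 0 (by omega) (by omega) (by omega) (by omega) u hu
      have e2r : Comp G (n 1) (n 2) (n r) := by
        obtain ⟨-, hc⟩ := h8 V G y n P 2 r (hsub 2 r (by omega) (by omega) (by omega))
        refine hc (n 1) ?_ ?_ 2 r (by omega) (by omega) (by omega) (by omega)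
        · intro i hi1 hi
          exact hfn 1 i (by omega) (by omega) (by omega)
        · intro i hi1 hi u hu
          exact hfP i 1 (by omega) (by omega) (by omega) (by omega) u hu
      have hE2 : ∀ u ∈ v0 :: M, u ∈ Far G (n 1) := by
        intro u hu
        have := hun u hu 1 (by omega)
        exact ⟨this.1, fun h => this.2 (by omega) h.symm⟩
      have g1 : Cn G (Far G (n 1)) v0 v := lwb_path G _ M v0 hL4 hE2 v hv
      have hzf : z ∈ Far G (n 1) := by
        have := hzn 1 (by omega) (by omega)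
        exact ⟨fun h => this.1 h.symm, fun h => this.2 h.symm⟩
      have hxf : n 0 ∈ Far G (n 1) := hfn 1 0 (by omega) (by omega) (by omega)
      have hrf : n r ∈ Far G (n 1) := hfn 1 r (by omega) (by omega) (by omega)
      have g2 : Cn G (Far G (n 1)) (n r) v0 :=
        c4 _ _ _ hrf (hE2 v0 (by simp)) (by rw [hnr]; exact hv0p.symm)
      have g3 : Cn G (Far G (n 1)) v z := c4 _ _ _ (hE2 v hv) hzf hzv.symm
      have g4 : Cn G (Far G (n 1)) z (n 0) := c4 _ _ _ hzf hxf (by rw [hn0]; exact hxz.symm)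
      have e20 : Cn G (Far G (n 1)) (n 2) (n 0) :=
        c2 _ _ _ _ ((c5 _ _ _).1 e2r) (c2 _ _ _ _ g2 (c2 _ _ _ _ g1 (c2 _ _ _ _ g3 g4)))
      exact hCI ⟨y, n 0, n 1, n 2, hyn 0 (by omega), hyn 1 (by omega), hyn 2 (by omega),
        e01, e12, (c5 _ _ _).2 (c1 _ _ _ e20).2⟩
  have hLP : LPc G y y u0 [z] n P 0 r (v0 :: M) true false := by
    have hMt : ∀ u ∈ M, v0 ≠ u := fun u hu => hIP.1 u (by simp [hu])
    refine ⟨by simpa using hArc, ?_, hu0far.1.symm, hu0far.2, ?_, ?_, by simp, by simp,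
      by simp [IPt], hL4, ?_, by simp, ?_, ?_, ?_, ?_, ?_, ?_, ?_⟩
    · intro i j _ hij hj
      exact hstb i j hij (by omega)
    · intro i _ hi
      exact ⟨hyn i (by omega), hu0n i (by omega)⟩
    · intro i _ hi u hu
      have hf := hArc.far i (by omega) (by omega) u hu
      have hs := hsepc i (by omega) u hu u0 hu0c
      exact ⟨hf.1, hs.1.symm, hf.2, hs.2⟩
    · intro u hu
      simp only [List.head?_cons, Option.mem_def, Option.some.injEq] at hu
      subst hu
      exact ⟨by simp [hyz], by simp; exact fun h => hzu0.2 h.symm⟩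
    · intro u hu
      have hu' : u ∈ v0 :: M := List.mem_of_getLast? hu
      exact ⟨by simp [(hfar u hu').2], by simp [(hL1 u hu).symm]⟩
    · intro u hu
      have hu' : u ∈ v0 :: M := List.mem_of_mem_dropLast hu
      exact ⟨(hfar u hu').2, fun h => hL2 u hu h.symm⟩
    · intro u hu
      simp only [List.mem_singleton] at hu
      subst hu
      refine ⟨hzy, fun h => hzu0.1 h.symm, ?_⟩
      rw [hn0]
      simp [hxz.symm]
    · intro u hu
      refine ⟨(hfar u hu).1, hL3 u hu, ?_⟩
      simp only [Nat.zero_add]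
      rw [hnr]
      simp only [List.head?_cons, Option.some.injEq]
      constructor
      · intro h
        rcases List.mem_cons.1 hu with hu' | hu'
        · exact hu'.symm
        · exfalso
          have hm := hM u hu'
          exact hm.2.1 ⟨hm.2.2, p, hp, h⟩
      · intro h
        subst h
        exact hv0p
    · intro u hu
      simp only [List.mem_singleton] at hu
      subst hu
      refine ⟨?_, fun i _ hi w hw => hzP i (by omega) w hw⟩
      intro i _ hi
      refine ⟨?_, ?_⟩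
      · by_cases h0 : i = 0
        · subst h0
          rw [hn0]
          exact hzx
        · exact fun h => (hzn i (by omega) (by omega)).1 h.symm
      · intro h0
        exact (hzn i (by omega) (by omega)).2
    · intro u hu
      refine ⟨?_, fun i _ hi w hw => hsepc i (by omega) w hw u (hcomp u hu)⟩
      intro i _ hi
      have := hun u hu i (by omega)
      exact ⟨this.1, fun h => this.2 (by omega)⟩
    · intro u hu w hw
      simp only [List.mem_singleton] at hu
      subst hu
      exact hcz w hw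
  have hfin := (h9 V G y y u0 [z] n P 0 r (v0 :: M) true false hLP
    (Or.inr ⟨by simp, hW.odd, hr3⟩)).2 hR
  exact hfin.1

end Pool.Agent.Helper64.FL
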