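import Pool.Agent.Helper64.FL.StE

set_option autoImplicit false

namespace Pool.Agent.Helper64.FL

open Pool.Agent.Helper64.CT Pool.Agent.Helper64.DT
open Pool.Agent.Helper64.HG (Ovl Model Circ IC HellyCircle ChordModel)

/-- the new list of segments with the bit `z` added -/
def nam_up {V : Type} (z : ℕ) (L : List (Seg × List V)) : List (Seg × List V) :=
  L.map (fun p => (⟨p.1.u, p.1.w, sb p.1.cl z⟩, p.2))

theorem nam_addz {V : Type} (z : ℕ) (L : List (Seg × List V)) :
    (nam_up z L).map Prod.fst = addz z (L.map Prod.fst) := by
  induction L with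
  | nil => rfl
  | cons p L ih =>
    simp only [nam_up, List.map_cons, addz] at ih ⊢
    rw [ih]

theorem nam_mem {V : Type} (z : ℕ) (L : List (Seg × List V)) (q : Seg × List V)
    (hq : q ∈ nam_up z L) : ∃ p ∈ L, q = (⟨p.1.u, p.1.w, sb p.1.cl z⟩, p.2) := by
  unfold nam_up at hq
  rw [List.mem_map] at hq
  obtain ⟨p, hp, h⟩ := hq
  exact ⟨p, hp, h.symm⟩

theorem st_NAM (h1 : ST_TBS) (h2 : ST_PXI) (h3 : ST_IPL) : ST_NAM := by
  classical
  have _ := h3
  intro V G s f L g l hM hsg hdb hn
  obtain ⟨hsb, hsl, hlor, -⟩ := h1
  obtain ⟨hpc, hpi, -, -, hpm⟩ := h2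
  have hmap := hM.map
  rw [hsg] at hmap
  obtain ⟨⟨g', P⟩, L0, hL⟩ : ∃ q L0, L = q :: L0 := by
    cases L with
    | nil => simp at hmap
    | cons q L0 => exact ⟨q, L0, rfl⟩
  subst hL
  simp only [List.map_cons, List.cons.injEq] at hmap
  obtain ⟨hg', hl⟩ := hmap
  subst hg'
  have hb := hM.bnd (g', P) (by simp)
  simp only at hb
  obtain ⟨hbu, hbw, hbn⟩ := hb
  have hnad := (hM.nad g'.u g'.w (by omega) (by omega) hdb).2.2 hbn
  have hpth := hM.pth (g', P) (by simp)
  simp only at hpth
  obtain ⟨z, P2, hP⟩ : ∃ z P2, P = z :: P2 := by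
    cases P with
    | nil =>
      exfalso
      simp only [List.nil_append, IPt] at hpth
      exact hnad (hpth.2.1 _ (by simp))
    | cons z P2 => exact ⟨z, P2, rfl⟩
  subst hP
  rw [List.cons_append] at hpth
  obtain ⟨hp1, hp2, hp3, hp4⟩ := hpth
  have hadj : G.Adj (f g'.u) z := hp2 z (by simp)
  simp only [List.tail_cons] at hp3
  have hfz : ∀ i, i < s.n → z ≠ f i := fun i hi =>
    hM.dis (g', z :: P2) (by simp) z (by simp) i hi
  have hold : ∀ i, i < s.n → Function.update f s.n z i = f i := fun i hi =>
    Function.update_of_ne (by omega) _ _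
  have hnew : Function.update f s.n z s.n = z := Function.update_self _ _ _
  have hsep := hM.sep
  rw [List.pairwise_cons] at hsep
  obtain ⟨hsep1, hsep2⟩ := hsep
  have hnames : nameS s = ⟨Nat.succ s.n, sb s.e (px g'.u s.n),
      Nat.lor s.d (Nat.shiftLeft g'.cl (Nat.mul 32 s.n)),
      ⟨s.n, g'.w, sb g'.cl g'.u⟩ :: addz s.n l⟩ := by
    unfold nameS
    rw [hsg]
  refine ⟨Function.update f s.n z, (⟨s.n, g'.w, sb g'.cl g'.u⟩, P2) :: nam_up s.n L0, ?_, ?_⟩
  · rw [hnames]
    constructor
    · show Nat.succ s.n ≤ 32
      omega
    · intro i hi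
      exact hi
    · intro i j hi hj hij
      simp only [Nat.succ_eq_add_one] at hi hj
      by_cases hi' : i < s.n
      · by_cases hj' : j < s.n
        · rw [hold i hi', hold j hj'] at hij
          exact hM.inj i j hi' hj' hij
        · have hj2 : j = s.n := by omega
          rw [hold i hi', hj2, hnew] at hij
          exact absurd hij.symm (hfz i hi')
      · have hi2 : i = s.n := by omega
        by_cases hj' : j < s.n
        · rw [hold j hj', hi2, hnew] at hij
          exact absurd hij (hfz j hj')
        · omega
    · intro i j hi hj hij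
      simp only [eb] at hij
      rw [hsb, Bool.or_eq_true] at hij
      simp only [Nat.succ_eq_add_one]
      rcases hij with hij | hij
      · obtain ⟨a1, a2, a3⟩ := hM.adj i j hi hj hij
        refine ⟨by omega, by omega, fun hne => ?_⟩
        rw [hold i a1, hold j a2]
        exact a3 hne
      · have hij' := of_decide_eq_true hij
        rcases hpi g'.u s.n i j (by omega) hn hi hj hij' with ⟨b1, b2⟩ | ⟨b1, b2⟩
        · subst b1
          subst b2
          refine ⟨by omega, by omega, fun _ => ?_⟩
          rw [hold _ hbu, hnew]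
          exact hadj
        · subst b1
          subst b2
          refine ⟨by omega, by omega, fun _ => ?_⟩
          rw [hold _ hbu, hnew]
          exact hadj.symm
    · intro i j hi hj hij
      simp only [db] at hij
      rw [hlor, Bool.or_eq_true] at hij
      simp only [Nat.succ_eq_add_one]
      rcases hij with hij | hij
      · obtain ⟨a1, a2, a3⟩ := hM.nad i j hi hj hij
        refine ⟨by omega, by omega, fun hne => ?_⟩
        rw [hold i a1, hold j a2]
        exact a3 hne
      · rw [hsl, Bool.and_eq_true] at hij
        obtain ⟨c1, c2⟩ := hij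
        have c1' := of_decide_eq_true c1
        have hmul : Nat.mul 32 s.n = 32 * s.n := rfl
        rw [hmul] at c1' c2
        rw [hpm] at c1' c2
        obtain ⟨d1, d2, d3, d4⟩ := hM.cln (g', z :: P2) (by simp) _ c2
        simp only at d1 d2 d3 d4
        have hmin : min i j < 32 := lt_of_le_of_lt (min_le_left _ _) hi
        have hmax : max i j = s.n := by omega
        have hk : 32 * max i j + min i j - 32 * s.n = min i j := by omega
        rw [hk] at d1 d2 d3 d4
        have hzz : ¬ G.Adj (f (min i j)) z := d4 z (by simp)
        rcases le_total i j with hle | hle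
        · rw [max_eq_right hle] at hmax
          rw [min_eq_left hle] at d1 hzz
          subst hmax
          refine ⟨by omega, by omega, fun _ => ?_⟩
          rw [hold i d1, hnew]
          exact hzz
        · rw [max_eq_left hle] at hmax
          rw [min_eq_right hle] at d1 hzz
          subst hmax
          refine ⟨by omega, by omega, fun _ => ?_⟩
          rw [hold j d1, hnew]
          exact fun h => hzz h.symm
    · rw [List.map_cons, nam_addz, hl]
    · intro q hq
      rw [List.mem_cons] at hq
      simp only [Nat.succ_eq_add_one]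
      rcases hq with rfl | hq
      · exact ⟨by simp, by simp only; omega, by simp only; omega⟩
      · obtain ⟨p, hp, rfl⟩ := nam_mem _ _ _ hq
        obtain ⟨e1, e2, e3⟩ := hM.bnd p (List.mem_cons_of_mem _ hp)
        exact ⟨by simp only; omega, by simp only; omega, e3⟩
    · intro q hq
      rw [List.mem_cons] at hq
      rcases hq with rfl | hq
      · simp only
        rw [hnew, hold _ hbw]
        exact hp4
      · obtain ⟨p, hp, rfl⟩ := nam_mem _ _ _ hq
        obtain ⟨e1, e2, e3⟩ := hM.bnd p (List.mem_cons_of_mem _ hp)
        simp only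
        rw [hold _ e1, hold _ e2]
        exact hM.pth p (List.mem_cons_of_mem _ hp)
    · intro q hq x hx i hi
      simp only [Nat.succ_eq_add_one] at hi
      rw [List.mem_cons] at hq
      rcases hq with rfl | hq
      · simp only at hx
        by_cases hi' : i < s.n
        · rw [hold i hi']
          exact hM.dis (g', z :: P2) (by simp) x (List.mem_cons_of_mem _ hx) i hi'
        · have hi2 : i = s.n := by omega
          rw [hi2, hnew]
          exact (hp4.1 x (List.mem_append_left _ hx)).symm
      · obtain ⟨p, hp, rfl⟩ := nam_mem _ _ _ hq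
        simp only at hx
        by_cases hi' : i < s.n
        · rw [hold i hi']
          exact hM.dis p (List.mem_cons_of_mem _ hp) x hx i hi'
        · have hi2 : i = s.n := by omega
          rw [hi2, hnew]
          exact ((hsep1 p hp z (by simp) x hx).1).symm
    · intro q hq i hi
      simp only [Nat.succ_eq_add_one]
      rw [List.mem_cons] at hq
      rcases hq with rfl | hq
      · simp only at hi ⊢
        rw [hsb, Bool.or_eq_true] at hi
        rcases hi with hi | hi
        · obtain ⟨d1, d2, d3, d4⟩ := hM.cln (g', z :: P2) (by simp) _ hi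
          simp only at d1 d2 d3 d4
          refine ⟨by omega, by omega, d3, fun x hx => ?_⟩
          rw [hold i d1]
          exact d4 x (List.mem_cons_of_mem _ hx)
        · have hi' := of_decide_eq_true hi
          subst hi'
          refine ⟨by omega, by omega, hbn, fun x hx => ?_⟩
          rw [hold _ hbu]
          exact hp3 x (List.mem_append_left _ hx)
      · obtain ⟨p, hp, rfl⟩ := nam_mem _ _ _ hq
        simp only at hi ⊢
        obtain ⟨e1, e2, e3⟩ := hM.bnd p (List.mem_cons_of_mem _ hp)
        rw [hsb, Bool.or_eq_true] at hi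
        rcases hi with hi | hi
        · obtain ⟨d1, d2, d3, d4⟩ := hM.cln p (List.mem_cons_of_mem _ hp) _ hi
          refine ⟨by omega, d2, d3, fun x hx => ?_⟩
          rw [hold i d1]
          exact d4 x hx
        · have hi' := of_decide_eq_true hi
          subst hi'
          refine ⟨by omega, by omega, by omega, fun x hx => ?_⟩
          rw [hnew]
          exact (hsep1 p hp z (by simp) x hx).2
    · rw [List.pairwise_cons]
      refine ⟨?_, ?_⟩
      · intro q hq x hx y hy
        obtain ⟨p, hp, rfl⟩ := nam_mem _ _ _ hq
        exact hsep1 p hp x (List.mem_cons_of_mem _ hx) y hy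
      · unfold nam_up
        rw [List.pairwise_map]
        exact hsep2
  · intro hC
    rw [hnames]
    intro x
    simp only [Nat.succ_eq_add_one]
    rcases hC x with ⟨i, hi, rfl⟩ | ⟨p, hp, hx⟩
    · exact Or.inl ⟨i, by omega, (hold i hi).symm⟩
    · rw [List.mem_cons] at hp
      rcases hp with rfl | hp
      · simp only [List.mem_cons] at hx
        rcases hx with rfl | hx
        · exact Or.inl ⟨s.n, by omega, hnew.symm⟩
        · exact Or.inr ⟨_, List.mem_cons_self, hx⟩
      · refine Or.inr ⟨(⟨p.1.u, p.1.w, sb p.1.cl s.n⟩, p.2), List.mem_cons_of_mem _ ?_, hx⟩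
        unfold nam_up
        exact List.mem_map_of_mem hp

end Pool.Agent.Helper64.FL
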