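import Pool.Agent.Helper64.FL.StC

set_option autoImplicit false

namespace Pool.Agent.Helper64.FL

open Pool.Agent.Helper64.CT Pool.Agent.Helper64.DT
open Pool.Agent.Helper64.HG (Ovl Model Circ IC HellyCircle ChordModel)

variable {V : Type}

theorem ttx_mono {G : SimpleGraph V} {T S : Set V} {x y z a : V} {la : List V} {a' b : V}
    {lb : List V} {b' m m' : V} (hTS : T ⊆ S) (h : TTp G T x y z a la a' b lb b' m m') :
    TTp G S x y z a la a' b lb b' m m' :=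
  ⟨h.A, h.B, h.Ay, h.Az, h.Bx, h.Bz, h.AB, h.mm, h.zm, h.zm', h.mF, h.mF',
    fun _ hu => hTS (h.inS.1 hu), fun _ hu => hTS (h.inS.2.1 hu), hTS h.inS.2.2.1,
    hTS h.inS.2.2.2⟩

theorem ttx_leg {G : SimpleGraph V} {o : V} {la : List V} {a : V} {lb : List V} {b : V}
    (h : LegX G o la a lb b) : LegX G o lb b la a :=
  fun u hu v hv => ⟨(h v hv u hu).1.symm, fun h' => (h v hv u hu).2 h'.symm⟩

theorem ttx_clw {G : SimpleGraph V} {T : Set V} {o : V} {la : List V} {a : V} {lb : List V}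
    {b : V} {lc : List V} {c : V} (h : Clw G T o la a lb b lc c) : Clw G T o lb b lc c la a :=
  ⟨h.oS, fun u hu => h.inS u (by tauto), h.pb, h.pc, h.pa, h.bc, ttx_leg h.ab, ttx_leg h.ac⟩

theorem ttx_mnt (hC : ST_CNB) {G : SimpleGraph V} {T : Set V} {x y z a b c : V}
    (h : MnT G T x y z a b c) : MnT G T y z x b c a := by
  obtain ⟨c1, c2, -, -, -, -, -⟩ := hC V G
  refine ⟨h.bT, h.cT, h.aT, h.yb, h.zc, h.xa, ?_, ?_⟩
  · intro u hu
    exact c2 _ _ _ _ (c1 _ _ _ (h.con b h.bT)).2 (h.con u hu)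
  · intro T' hT' b' c' a' hb hc ha h1 h2
    exact h.min T' hT' a' b' c' ha hb hc (c1 _ _ _ h2).2 (c2 _ _ _ _ (c1 _ _ _ h2).2 h1)

theorem ttx_ray {G : SimpleGraph V} {Q : Set V} (hD : DF G) (hQ : MaxC G Q) {x y a : V}
    (hx : x ∈ Q) (hy : y ∈ Q) (hxy : x ≠ y) (ha : a ∉ Q) (hxa : G.Adj x a) : ¬ G.Adj y a := by
  intro hya
  apply ha
  apply hQ.2
  intro q hq hqa
  by_cases h1 : q = x
  · subst h1
    exact hxa.symm
  · by_cases h2 : q = y
    · subst h2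
      exact hya.symm
    · exact (hD x y q a (hQ.1 x hx y hy hxy) (hQ.1 x hx q hq (Ne.symm h1))
        (hQ.1 y hy q hq (Ne.symm h2)) hxa hya hqa).symm

theorem st_TTX (h1 : ST_MNT) (h2 : ST_STE) (h3 : ST_MNC) (h4 : ST_MNN) (h5 : ST_MNP)
    (h6 : ST_CNB) : ST_TTX := by
  intro V _ G Q S hD hCI hN hQ hS x y z a0 b0 c0 hx hy hz hxy hxz hyz _ _ _ hxa hyb hzc hab hac
  obtain ⟨T, a, b, c, hTS, hT⟩ := h1 V G S x y z a0 b0 c0 hxa hyb hzc hab hac
  have hTQ : ∀ v ∈ T, v ∉ Q := fun v hv => hS v (hTS hv)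
  have hab' : a ≠ b := by
    intro h
    subst h
    exact ttx_ray hD hQ hx hy hxy (hTQ a hT.aT) hT.xa hT.yb
  have hac' : a ≠ c := by
    intro h
    subst h
    exact ttx_ray hD hQ hx hz hxz (hTQ a hT.aT) hT.xa hT.zc
  have hbc' : b ≠ c := by
    intro h
    subst h
    exact ttx_ray hD hQ hy hz hyz (hTQ b hT.bT) hT.yb hT.zc
  rcases h2 V G T a b c (hT.con b hT.bT) (hT.con c hT.cT) hab' hac' hbc' with
    ⟨o, la, lb, lc, hC⟩ | ⟨p, q, r, la, lb, lc, hNt⟩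
  · by_cases e1 : o = a
    · subst e1
      obtain ⟨a1, l1, a1', b1, l2, b1', m, m', h⟩ := h5 V G Q T hD hCI hQ hTQ y z x b c o hy hz hx
        hyz hxy.symm hxz.symm (ttx_mnt h6 hT) lb lc la (ttx_clw hC)
      exact Or.inr (Or.inl ⟨a1, l1, a1', b1, l2, b1', m, m', ttx_mono hTS h⟩)
    · by_cases e2 : o = b
      · subst e2
        obtain ⟨a1, l1, a1', b1, l2, b1', m, m', h⟩ := h5 V G Q T hD hCI hQ hTQ z x y c a o hz hx hy
          hxz.symm hyz.symm hxy (ttx_mnt h6 (ttx_mnt h6 hT)) lc la lb (ttx_clw (ttx_clw hC))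
        exact Or.inr (Or.inr ⟨a1, l1, a1', b1, l2, b1', m, m', ttx_mono hTS h⟩)
      · by_cases e3 : o = c
        · subst e3
          obtain ⟨a1, l1, a1', b1, l2, b1', m, m', h⟩ := h5 V G Q T hD hCI hQ hTQ x y z a b o
            hx hy hz hxy hxz hyz hT la lb lc hC
          exact Or.inl ⟨a1, l1, a1', b1, l2, b1', m, m', ttx_mono hTS h⟩
        · exact (h3 V G Q T hD hN hQ hTQ x y z a b c hx hy hz hxy hxz hyz hT o la lb lc hC
            e1 e2 e3).elim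
  · exact (h4 V G Q T hD hN hQ hTQ x y z a b c hx hy hz hxy hxz hyz hT p q r la lb lc hNt).elim

end Pool.Agent.Helper64.FL
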